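import Pool.Agent.X115.HS.Stm2

set_option autoImplicit false

namespace Pool.Agent.X59.HS

open Pool.Agent.X115.HS
open MeasureTheory Set Filter Topology Real

theorem ode : S_ODE := by
  intro g g1 g2 h hg hg1 hg2 hh hg0 t ht
  set Φ : ℝ → ℝ := fun τ => g τ * Real.cos (t - τ) + g1 τ * Real.sin (t - τ) with hΦ
  have hcos : ∀ τ : ℝ, HasDerivAt (fun τ => Real.cos (t - τ)) (Real.sin (t - τ)) τ := by
    intro τ
    have h1 := ((hasDerivAt_id τ).const_sub t).cos
    simpa using h1
  have hsin : ∀ τ : ℝ, HasDerivAt (fun τ => Real.sin (t - τ)) (-Real.cos (t - τ)) τ := by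
    intro τ
    have h1 := ((hasDerivAt_id τ).const_sub t).sin
    simpa using h1
  have hd : ∀ τ : ℝ, 0 ≤ τ → HasDerivWithinAt Φ
      ((g1 τ * Real.cos (t - τ) + g τ * Real.sin (t - τ)) +
        (g2 τ * Real.sin (t - τ) + g1 τ * -Real.cos (t - τ))) (Ici 0) τ := by
    intro τ hτ
    exact ((hg τ hτ).mul (hcos τ).hasDerivWithinAt).add
      ((hg1 τ hτ).mul (hsin τ).hasDerivWithinAt)
  have hcont : ContinuousOn Φ (Icc 0 t) := fun τ hτ =>
    ((hd τ hτ.1).continuousWithinAt).mono Icc_subset_Ici_self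
  have hint : IntervalIntegrable (fun τ => -(Real.sin (t - τ) * h τ)) volume 0 t := by
    apply ContinuousOn.intervalIntegrable
    rw [uIcc_of_le ht]
    refine ContinuousOn.neg (ContinuousOn.mul ?_ (hh.mono Icc_subset_Ici_self))
    exact (Real.continuous_sin.comp (continuous_const.sub continuous_id)).continuousOn
  have hder : ∀ τ ∈ Ioo (0 : ℝ) t, HasDerivWithinAt Φ (-(Real.sin (t - τ) * h τ)) (Ioi τ) τ := by
    intro τ hτ
    have h1 := (hd τ hτ.1.le).mono (show Ioi τ ⊆ Ici 0 from fun x hx => (hτ.1.trans hx).le)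
    rw [hg2 τ hτ.1] at h1
    have e : (g1 τ * Real.cos (t - τ) + g τ * Real.sin (t - τ)) +
        ((-g τ - h τ) * Real.sin (t - τ) + g1 τ * -Real.cos (t - τ)) =
        -(Real.sin (t - τ) * h τ) := by ring
    rw [e] at h1
    exact h1
  have hftc := intervalIntegral.integral_eq_sub_of_hasDeriv_right_of_le ht hcont hder hint
  rw [intervalIntegral.integral_neg] at hftc
  have e1 : Φ t = g t := by simp [hΦ]
  have e0 : Φ 0 = g1 0 * Real.sin t := by simp [hΦ, hg0]
  rw [e1, e0] at hftc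
  linarith

end Pool.Agent.X59.HS
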